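import Mathlib
import Pool.Agent.L7h10.AB.Stm

/-! Project AB, part THREEA: degree three. -/

set_option autoImplicit false

namespace Pool.Agent.L7h69.AB

open Polynomial Pool.Agent.L7h10.AB

theorem s_THREEA : S_THREEA := by
  intro K _ _ p _ hp b c
  obtain ⟨f, hf⟩ : ∃ f : K[X], f = X ^ 3 + C b * X + C c := ⟨_, rfl⟩
  rw [← hf]
  have k2 : (2 : K) ≠ 0 := by
    intro h
    have h1 : ((2 : ℕ) : K) = 0 := by exact_mod_cast h
    rw [CharP.cast_eq_zero_iff K p] at h1
    have := Nat.le_of_dvd (by norm_num) h1
    omega
  have k3 : (3 : K) ≠ 0 := by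
    intro h
    have h1 : ((3 : ℕ) : K) = 0 := by exact_mod_cast h
    rw [CharP.cast_eq_zero_iff K p] at h1
    have := Nat.le_of_dvd (by norm_num) h1
    omega
  have inj := (algebraMap K (AlgebraicClosure K)).injective
  have l2 : (2 : AlgebraicClosure K) ≠ 0 := by
    intro h
    apply k2
    apply inj
    rw [map_ofNat, map_zero, h]
  have l3 : (3 : AlgebraicClosure K) ≠ 0 := by
    intro h
    apply k3
    apply inj
    rw [map_ofNat, map_zero, h]
  have m2 : algebraMap K (AlgebraicClosure K) 2 = 2 := map_ofNat _ 2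
  have m3 : algebraMap K (AlgebraicClosure K) 3 = 3 := map_ofNat _ 3
  have m4 : algebraMap K (AlgebraicClosure K) 4 = 4 := map_ofNat _ 4
  have m27 : algebraMap K (AlgebraicClosure K) 27 = 27 := map_ofNat _ 27
  obtain ⟨B, hB⟩ : ∃ B, B = algebraMap K (AlgebraicClosure K) b := ⟨_, rfl⟩
  obtain ⟨D, hD⟩ : ∃ D, D = algebraMap K (AlgebraicClosure K) c := ⟨_, rfl⟩
  have f1 : ∀ r : AlgebraicClosure K, aeval r f = r ^ 3 + B * r + D := by
    intro r
    rw [hf, hB, hD]
    simp
  have f2 : ∀ r : AlgebraicClosure K, aeval r (derivative f) = 3 * r ^ 2 + B := by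
    intro r
    rw [hf, hB]
    simp
    left
    rw [m2]
    norm_num
  have hdeg : f.natDegree = 3 := by
    rw [hf]
    compute_degree!
  have f3 : ∀ r : AlgebraicClosure K, aeval r (prim f) = D * r + B / 2 * r ^ 2 + r ^ 4 / 4 := by
    intro r
    unfold prim
    rw [hdeg, hf, hB, hD]
    simp only [Finset.sum_range_succ, Finset.sum_range_zero]
    simp [coeff_X, coeff_C, coeff_one]
    norm_num [m2, m3]
    ring
  have hdisc : (4 * b ^ 3 + 27 * c ^ 2 = 0) ↔ 4 * B ^ 3 + 27 * D ^ 2 = 0 := by
    rw [hB, hD]
    constructor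
    · intro h
      have := congrArg (algebraMap K (AlgebraicClosure K)) h
      simpa [m4, m27] using this
    · intro h
      apply inj
      simpa [m4, m27] using h
  have hc : c = 0 ↔ D = 0 := by
    rw [hD]
    constructor
    · intro h
      rw [h, map_zero]
    · intro h
      apply inj
      rw [h, map_zero]
  rw [Ne, Ne, hdisc, hc]
  have four : (4 : AlgebraicClosure K) ≠ 0 := by
    have : (4 : AlgebraicClosure K) = 2 * 2 := by norm_num
    rw [this]
    exact mul_ne_zero l2 l2
  constructor
  · rintro ⟨h1, h2⟩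
    have hd : ¬ 4 * B ^ 3 + 27 * D ^ 2 = 0 := by
      intro h
      by_cases hb0 : B = 0
      · have h3 : D = 0 := by
          rw [hb0] at h
          have h4 : (3 * 3 * 3) * D ^ 2 = 0 := by linear_combination h
          rcases mul_eq_zero.1 h4 with h5 | h5
          · exact absurd h5 (mul_ne_zero (mul_ne_zero l3 l3) l3)
          · exact pow_eq_zero_iff (by norm_num) |>.1 h5
        apply h1 0
        · rw [f1, hb0, h3]
          ring
        · rw [f2, hb0]
          ring
      · obtain ⟨r, hr⟩ : ∃ r, r = -(3 * D) / (2 * B) := ⟨_, rfl⟩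
        have hr2 : 3 * r ^ 2 + B = 0 := by
          have : 3 * r ^ 2 + B = (4 * B ^ 3 + 27 * D ^ 2) / (4 * B ^ 2) := by
            rw [hr]
            have e4 : (4 : AlgebraicClosure K) = 2 * 2 := by norm_num
            field_simp
            ring
          rw [this, h, zero_div]
        apply h1 r
        · rw [f1]
          have h3 : B * r = -(3 * D) / 2 := by
            rw [hr]
            field_simp
          have h4 : 3 * (r ^ 3 + B * r + D) = 0 := by
            have h5 : 3 * r ^ 3 = -(B * r) := by linear_combination r * hr2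
            have h6 : 3 * (r ^ 3 + B * r + D) = 2 * (B * r) + 3 * D := by linear_combination h5
            rw [h6, h3]
            field_simp
            ring
          rcases mul_eq_zero.1 h4 with h5 | h5
          · exact absurd h5 l3
          · exact h5
        · rw [f2, hr2]
    refine ⟨hd, ?_⟩
    intro hD0
    have hb0 : B ≠ 0 := by
      intro h
      apply hd
      rw [h, hD0]
      ring
    obtain ⟨r, hr⟩ := IsAlgClosed.exists_pow_nat_eq (-B) (n := 2) (by norm_num)
    have hr0 : r ≠ 0 := by
      rintro rfl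
      apply hb0
      linear_combination hr
    have h3 := h2 r (-r) (by rw [f1, hD0]; linear_combination r * hr)
      (by rw [f1, hD0]; linear_combination -r * hr) (by rw [f3, f3, hD0]; ring)
    have h4 : 2 * r = 0 := by linear_combination h3
    rcases mul_eq_zero.1 h4 with h5 | h5
    · exact l2 h5
    · exact hr0 h5
  · rintro ⟨hd, hD0⟩
    refine ⟨?_, ?_⟩
    · intro r h1 h2
      rw [f1] at h1
      rw [f2] at h2
      apply hd
      have e1 : B = -3 * r ^ 2 := by linear_combination h2
      have e2 : D = 2 * r ^ 3 := by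
        rw [e1] at h1
        linear_combination h1
      rw [e1, e2]
      ring
    · intro r s h1 h2 h3
      rw [f1] at h1 h2
      rw [f3, f3] at h3
      by_contra hrs
      have hrs' : r - s ≠ 0 := sub_ne_zero.2 hrs
      have e1 : B = -(r ^ 2 + r * s + s ^ 2) := by
        have : (r - s) * (B + (r ^ 2 + r * s + s ^ 2)) = 0 := by linear_combination h1 - h2
        rcases mul_eq_zero.1 this with h | h
        · exact absurd h hrs'
        · linear_combination h
      have e2 : D = r * s * (r + s) := by
        rw [e1] at h1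
        linear_combination h1
      have e3 : (r - s) ^ 3 * (r + s) = 0 := by
        have h4 : 4 * (D * r + B / 2 * r ^ 2 + r ^ 4 / 4) = 4 * (D * s + B / 2 * s ^ 2 + s ^ 4 / 4) := by
          rw [h3]
        have h5 : ∀ t : AlgebraicClosure K, 4 * (D * t + B / 2 * t ^ 2 + t ^ 4 / 4) =
            4 * D * t + 2 * B * t ^ 2 + t ^ 4 := by
          intro t
          have e4 : (4 : AlgebraicClosure K) = 2 * 2 := by norm_num
          have h6 : t ^ 4 / 4 = t ^ 4 * (4 : AlgebraicClosure K)⁻¹ := div_eq_mul_inv _ _
          have h7 : B / 2 = B * (2 : AlgebraicClosure K)⁻¹ := div_eq_mul_inv _ _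
          have h8 : (4 : AlgebraicClosure K) * (4 : AlgebraicClosure K)⁻¹ = 1 := mul_inv_cancel₀ four
          have h9 : (2 : AlgebraicClosure K) * (2 : AlgebraicClosure K)⁻¹ = 1 := mul_inv_cancel₀ l2
          rw [h6, h7]
          linear_combination t ^ 4 * h8 + 2 * B * t ^ 2 * h9
        rw [h5, h5, e1, e2] at h4
        linear_combination -h4
      rcases mul_eq_zero.1 e3 with h | h
      · exact hrs' (pow_eq_zero_iff (by norm_num) |>.1 h)
      · apply hD0
        rw [e2, h, mul_zero]

end Pool.Agent.L7h69.AB
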